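import Pool.Agent.H58.FL.TargetsB

/-!
Row HEQ of the board flc_modules (`MP_6a7a6f_gt`): homotopy retracts.
-/

set_option autoImplicit false

namespace Pool.Agent.H13.FL

open Pool.Agent.H58.FL Pool.Agent.H59 Pool.Agent.H48.FR

theorem pf_comp {Y Z W : Type} [TopologicalSpace Y] [TopologicalSpace Z] [TopologicalSpace W]
    (n : ℕ) (f : C(Y, Z)) (g : C(Z, W)) (z : Ch ℤ n Y) :
    pf ℤ n (g.comp f) z = pf ℤ n g (pf ℤ n f z) := by
  unfold pf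
  rw [Finsupp.lmapDomain_apply, Finsupp.lmapDomain_apply, Finsupp.lmapDomain_apply,
    ← Finsupp.mapDomain_comp]
  rfl

theorem pf_ident {Y : Type} [TopologicalSpace Y] (n : ℕ) (z : Ch ℤ n Y) :
    pf ℤ n (ContinuousMap.id Y) z = z := by
  unfold pf
  rw [Finsupp.lmapDomain_apply]
  exact Finsupp.mapDomain_id

theorem isZ_pf {Y Z : Type} [TopologicalSpace Y] [TopologicalSpace Z] (n : ℕ) (f : C(Y, Z))
    (z : Ch ℤ n Y) (h : IsZ z) : IsZ (pf ℤ n f z) := by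
  cases n with
  | zero => trivial
  | succ n =>
    change bd ℤ n Z (pf ℤ (n + 1) f z) = 0
    rw [bd_pf, show bd ℤ n Y z = 0 from h, map_zero]

theorem pf_HEQ (hHTP : T_HTP) : T_HEQ := by
  intro Y Z _ _ f g h n
  have key : ∀ z : Ch ℤ n Y, IsZ z → ∃ b : Ch ℤ (n + 1) Y,
      bd ℤ n Y b = pf ℤ n g (pf ℤ n f z) - z := by
    intro z hz
    obtain ⟨b, hb⟩ := hHTP Y Y (g.comp f) (ContinuousMap.id Y) h n z hz
    exact ⟨b, by rw [hb, pf_comp, pf_ident]⟩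
  refine ⟨fun hv z hz => ?_, fun ⟨h0, hh0, hc⟩ => ⟨pf ℤ n g h0, isZ_pf n g h0 hh0,
    fun z hz => ?_⟩⟩
  · obtain ⟨b, hb⟩ := hv (pf ℤ n f z) (isZ_pf n f z hz)
    obtain ⟨b', hb'⟩ := key z hz
    refine ⟨pf ℤ (n + 1) g b - b', ?_⟩
    rw [map_sub, bd_pf, hb, hb']
    abel
  · obtain ⟨a, b, hb⟩ := hc (pf ℤ n f z) (isZ_pf n f z hz)
    obtain ⟨b', hb'⟩ := key z hz
    refine ⟨a, pf ℤ (n + 1) g b - b', ?_⟩
    rw [map_sub, bd_pf, hb, hb', map_sub, map_zsmul]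
    abel

end Pool.Agent.H13.FL
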