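import Pool.Agent.H58.FL.TargetsD

/-!
# Row PEN of the board fld_modules

There are no pentagons of monopoles.
-/

set_option autoImplicit false
set_option linter.unusedSimpArgs false

open Topology

namespace Pool.Agent.H13.FL

open Pool.Agent.H58.FL Pool.Agent.H59 Pool.Agent.H48.FR

noncomputable section

variable {E : Type} [NormedAddCommGroup E] [InnerProductSpace ℂ E]

private theorem cl_comp {n m : ℕ} {p : Fin n → E} (hp : Cl p) (f : Fin m → Fin n) :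
    Cl (fun i => p (f i)) := ⟨fun i => hp.1 (f i), fun i j => hp.2 (f i) (f j)⟩

private theorem cl_vec {n m : ℕ} {p : Fin n → E} (hp : Cl p) (q : Fin m → E)
    (f : Fin m → Fin n) (h : ∀ i, q i = p (f i)) : Cl q := by
  have : q = fun i => p (f i) := funext h
  rw [this]
  exact cl_comp hp f

private theorem perm3 (hMN4 : T_MN4) {n : ℕ} {p : Fin n → E} (hp : Cl p) (a b c : Fin n) :
    ar (p b) (p a) (p c) = -ar (p a) (p b) (p c) ∧ ar (p a) (p c) (p b) = -ar (p a) (p b) (p c) ∧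
    ar (p b) (p c) (p a) = ar (p a) (p b) (p c) ∧ ar (p c) (p a) (p b) = ar (p a) (p b) (p c) ∧
    ar (p c) (p b) (p a) = -ar (p a) (p b) (p c) := by
  obtain ⟨h1, h2, h3, h4, h5, -⟩ := (hMN4 E).1 (fun i => p (![a, b, c] i)) (cl_comp hp _)
  exact ⟨h1, h2, h3, h4, h5⟩

private theorem perm4 (hMN4 : T_MN4) {n : ℕ} {p : Fin n → E} (hp : Cl p) (a b c d : Fin n) :
    mn (p b) (p a) (p c) (p d) = -mn (p a) (p b) (p c) (p d) ∧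
    mn (p a) (p c) (p b) (p d) = -mn (p a) (p b) (p c) (p d) ∧
    mn (p a) (p b) (p d) (p c) = -mn (p a) (p b) (p c) (p d) := by
  obtain ⟨-, h2, h3, h4⟩ := (hMN4 E).2.1 (fun i => p (![a, b, c, d] i)) (cl_comp hp _)
  exact ⟨h2, h3, h4⟩

/-- one application of the exchange property -/
private theorem step (hMN4 : T_MN4) (hR5 : T_R5) {n : ℕ} {p : Fin n → E} (hp : Cl p)
    (h r1 r2 r3 r4 : Fin n) (h1 : mn (p h) (p r1) (p r2) (p r4) ≠ 0)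
    (h2 : mn (p h) (p r3) (p r4) (p r1) ≠ 0) :
    mn (p h) (p r1) (p r2) (p r3) = 0 ∧ mn (p h) (p r2) (p r3) (p r4) = 0 ∧
      mn (p h) (p r3) (p r4) (p r1) = mn (p h) (p r1) (p r2) (p r4) := by
  have e1 : mn (p h) (p r3) (p r4) (p r1) = mn (p h) (p r1) (p r3) (p r4) := by
    have a1 := (perm4 hMN4 hp h r3 r1 r4).2.2
    have a2 := (perm4 hMN4 hp h r1 r3 r4).2.1
    rw [a1, a2, neg_neg]
  have e2 : mn (p r3) (p r1) (p r2) (p r4) = mn (p r1) (p r2) (p r3) (p r4) := by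
    have a1 := (perm4 hMN4 hp r1 r3 r2 r4).1
    have a2 := (perm4 hMN4 hp r1 r2 r3 r4).2.1
    rw [a1, a2, neg_neg]
  have e3 : mn (p h) (p r3) (p r2) (p r4) = -mn (p h) (p r2) (p r3) (p r4) :=
    (perm4 hMN4 hp h r2 r3 r4).2.1
  have hc := (hMN4 E).2.2 (p h) (p r1) (p r2) (p r3) (p r4)
  have hR := hR5 E (fun i => p (![h, r1, r2, r4, r3] i)) (cl_comp hp _) h1
  have hR' : (mn (p r3) (p r1) (p r2) (p r4) ≠ 0 ∧ mn (p h) (p r3) (p r2) (p r4) = 0 ∧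
      mn (p h) (p r1) (p r3) (p r4) = 0 ∧ mn (p h) (p r1) (p r2) (p r3) = 0) ∨
    (mn (p r3) (p r1) (p r2) (p r4) = 0 ∧ mn (p h) (p r3) (p r2) (p r4) ≠ 0 ∧
      mn (p h) (p r1) (p r3) (p r4) = 0 ∧ mn (p h) (p r1) (p r2) (p r3) = 0) ∨
    (mn (p r3) (p r1) (p r2) (p r4) = 0 ∧ mn (p h) (p r3) (p r2) (p r4) = 0 ∧
      mn (p h) (p r1) (p r3) (p r4) ≠ 0 ∧ mn (p h) (p r1) (p r2) (p r3) = 0) ∨
    (mn (p r3) (p r1) (p r2) (p r4) = 0 ∧ mn (p h) (p r3) (p r2) (p r4) = 0 ∧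
      mn (p h) (p r1) (p r3) (p r4) = 0 ∧ mn (p h) (p r1) (p r2) (p r3) ≠ 0) := hR
  rw [e1] at h2
  rcases hR' with ⟨-, -, h3, -⟩ | ⟨-, -, h3, -⟩ | ⟨h3, h4, -, h5⟩ | ⟨-, -, h3, -⟩
  · exact absurd h3 h2
  · exact absurd h3 h2
  · rw [e3, neg_eq_zero] at h4
    rw [e2] at h3
    refine ⟨h5, h4, ?_⟩
    rw [e1]
    linarith
  · exact absurd h3 h2

private theorem of_mn {a b c d : E} {s : ℝ} (h : mn a b c d = s) :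
    ar b c d - ar a c d + ar a b d - ar a b c = s * (2 * Real.pi) := by
  unfold mn at h
  rwa [div_eq_iff (by positivity)] at h


theorem pf_PEN (hW5 : T_W5) (hMN4 : T_MN4) (hOP2 : T_OP2) (hR5 : T_R5) : T_PEN := by
  intro E _ _ p hp m0 m1 m2 m3 m4
  have F0 := hOP2 E (fun i => p (![5, 0, 1, 3] i)) (cl_comp hp _) m0
  have F1 := hOP2 E (fun i => p (![5, 1, 2, 4] i)) (cl_comp hp _) m1
  have F2 := hOP2 E (fun i => p (![5, 2, 3, 0] i)) (cl_comp hp _) m2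
  have F3 := hOP2 E (fun i => p (![5, 3, 4, 1] i)) (cl_comp hp _) m3
  have F4 := hOP2 E (fun i => p (![5, 4, 0, 2] i)) (cl_comp hp _) m4
  have S01 : Sp (p 0) (p 1) := ⟨hp.1 1, hp.2 0 1, F0 1 2 (by decide)⟩
  have S02 : Sp (p 0) (p 2) := ⟨hp.1 2, hp.2 0 2, F2 3 1 (by decide)⟩
  have S03 : Sp (p 0) (p 3) := ⟨hp.1 3, hp.2 0 3, F0 1 3 (by decide)⟩
  have S04 : Sp (p 0) (p 4) := ⟨hp.1 4, hp.2 0 4, F4 2 1 (by decide)⟩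
  have S05 : Sp (p 0) (p 5) := ⟨hp.1 5, hp.2 0 5, F0 1 0 (by decide)⟩
  have S10 : Sp (p 1) (p 0) := ⟨hp.1 0, hp.2 1 0, F0 2 1 (by decide)⟩
  have S12 : Sp (p 1) (p 2) := ⟨hp.1 2, hp.2 1 2, F1 1 2 (by decide)⟩
  have S13 : Sp (p 1) (p 3) := ⟨hp.1 3, hp.2 1 3, F0 2 3 (by decide)⟩
  have S14 : Sp (p 1) (p 4) := ⟨hp.1 4, hp.2 1 4, F1 1 3 (by decide)⟩
  have S15 : Sp (p 1) (p 5) := ⟨hp.1 5, hp.2 1 5, F0 2 0 (by decide)⟩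
  have S20 : Sp (p 2) (p 0) := ⟨hp.1 0, hp.2 2 0, F2 1 3 (by decide)⟩
  have S21 : Sp (p 2) (p 1) := ⟨hp.1 1, hp.2 2 1, F1 2 1 (by decide)⟩
  have S23 : Sp (p 2) (p 3) := ⟨hp.1 3, hp.2 2 3, F2 1 2 (by decide)⟩
  have S24 : Sp (p 2) (p 4) := ⟨hp.1 4, hp.2 2 4, F1 2 3 (by decide)⟩
  have S25 : Sp (p 2) (p 5) := ⟨hp.1 5, hp.2 2 5, F1 2 0 (by decide)⟩
  have S30 : Sp (p 3) (p 0) := ⟨hp.1 0, hp.2 3 0, F0 3 1 (by decide)⟩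
  have S31 : Sp (p 3) (p 1) := ⟨hp.1 1, hp.2 3 1, F0 3 2 (by decide)⟩
  have S32 : Sp (p 3) (p 2) := ⟨hp.1 2, hp.2 3 2, F2 2 1 (by decide)⟩
  have S34 : Sp (p 3) (p 4) := ⟨hp.1 4, hp.2 3 4, F3 1 2 (by decide)⟩
  have S35 : Sp (p 3) (p 5) := ⟨hp.1 5, hp.2 3 5, F0 3 0 (by decide)⟩
  have S40 : Sp (p 4) (p 0) := ⟨hp.1 0, hp.2 4 0, F4 1 2 (by decide)⟩
  have S41 : Sp (p 4) (p 1) := ⟨hp.1 1, hp.2 4 1, F1 3 1 (by decide)⟩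
  have S42 : Sp (p 4) (p 2) := ⟨hp.1 2, hp.2 4 2, F1 3 2 (by decide)⟩
  have S43 : Sp (p 4) (p 3) := ⟨hp.1 3, hp.2 4 3, F3 2 1 (by decide)⟩
  have S45 : Sp (p 4) (p 5) := ⟨hp.1 5, hp.2 4 5, F1 3 0 (by decide)⟩
  have S50 : Sp (p 5) (p 0) := ⟨hp.1 0, hp.2 5 0, F0 0 1 (by decide)⟩
  have S51 : Sp (p 5) (p 1) := ⟨hp.1 1, hp.2 5 1, F0 0 2 (by decide)⟩
  have S52 : Sp (p 5) (p 2) := ⟨hp.1 2, hp.2 5 2, F1 0 2 (by decide)⟩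
  have S53 : Sp (p 5) (p 3) := ⟨hp.1 3, hp.2 5 3, F0 0 3 (by decide)⟩
  have S54 : Sp (p 5) (p 4) := ⟨hp.1 4, hp.2 5 4, F1 0 3 (by decide)⟩
  obtain ⟨z0, y0, q0⟩ := step hMN4 hR5 hp 5 1 2 3 4 m1 m3
  obtain ⟨z1, y1, q1⟩ := step hMN4 hR5 hp 5 2 3 4 0 m2 m4
  obtain ⟨z2, y2, q2⟩ := step hMN4 hR5 hp 5 3 4 0 1 m3 m0
  obtain ⟨z3, y3, q3⟩ := step hMN4 hR5 hp 5 4 0 1 2 m4 m1
  obtain ⟨z4, y4, q4⟩ := step hMN4 hR5 hp 5 0 1 2 3 m0 m2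
  have hv : mn (p 5) (p 0) (p 1) (p 3) = 1 ∨ mn (p 5) (p 0) (p 1) (p 3) = -1 := by
    have h := ((hMN4 E).2.1 (fun i => p (![5, 0, 1, 3] i)) (cl_comp hp _)).1
    have h' : mn (p 5) (p 0) (p 1) (p 3) = 0 ∨ mn (p 5) (p 0) (p 1) (p 3) = 1 ∨
      mn (p 5) (p 0) (p 1) (p 3) = -1 := h
    rcases h' with h' | h'
    · exact absurd h' m0
    · exact h'
  have v2 : mn (p 5) (p 2) (p 3) (p 0) = mn (p 5) (p 0) (p 1) (p 3) := q4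
  have v4 : mn (p 5) (p 4) (p 0) (p 2) = mn (p 5) (p 0) (p 1) (p 3) := q1.trans v2
  have v1 : mn (p 5) (p 1) (p 2) (p 4) = mn (p 5) (p 0) (p 1) (p 3) := q3.trans v4
  have v3 : mn (p 5) (p 3) (p 4) (p 1) = mn (p 5) (p 0) (p 1) (p 3) := q0.trans v1
  have Z0 := of_mn z0
  have Z1 := of_mn z1
  have Z2 := of_mn z2
  have Z3 := of_mn z3
  have Z4 := of_mn z4
  have M0 := of_mn (rfl : mn (p 5) (p 0) (p 1) (p 3) = mn (p 5) (p 0) (p 1) (p 3))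
  have M1 := of_mn (v1 : mn (p 5) (p 1) (p 2) (p 4) = mn (p 5) (p 0) (p 1) (p 3))
  have M2 := of_mn (v2 : mn (p 5) (p 2) (p 3) (p 0) = mn (p 5) (p 0) (p 1) (p 3))
  have M3 := of_mn (v3 : mn (p 5) (p 3) (p 4) (p 1) = mn (p 5) (p 0) (p 1) (p 3))
  have M4 := of_mn (v4 : mn (p 5) (p 4) (p 0) (p 2) = mn (p 5) (p 0) (p 1) (p 3))
  obtain ⟨t5011, t5012, t5013, t5014, t5015⟩ := perm3 hMN4 hp 5 0 1
  obtain ⟨t5021, t5022, t5023, t5024, t5025⟩ := perm3 hMN4 hp 5 0 2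
  obtain ⟨t5031, t5032, t5033, t5034, t5035⟩ := perm3 hMN4 hp 5 0 3
  obtain ⟨t5041, t5042, t5043, t5044, t5045⟩ := perm3 hMN4 hp 5 0 4
  obtain ⟨t5121, t5122, t5123, t5124, t5125⟩ := perm3 hMN4 hp 5 1 2
  obtain ⟨t5131, t5132, t5133, t5134, t5135⟩ := perm3 hMN4 hp 5 1 3
  obtain ⟨t5141, t5142, t5143, t5144, t5145⟩ := perm3 hMN4 hp 5 1 4
  obtain ⟨t5231, t5232, t5233, t5234, t5235⟩ := perm3 hMN4 hp 5 2 3
  obtain ⟨t5241, t5242, t5243, t5244, t5245⟩ := perm3 hMN4 hp 5 2 4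
  obtain ⟨t5341, t5342, t5343, t5344, t5345⟩ := perm3 hMN4 hp 5 3 4
  obtain ⟨t0121, t0122, t0123, t0124, t0125⟩ := perm3 hMN4 hp 0 1 2
  obtain ⟨t0131, t0132, t0133, t0134, t0135⟩ := perm3 hMN4 hp 0 1 3
  obtain ⟨t0141, t0142, t0143, t0144, t0145⟩ := perm3 hMN4 hp 0 1 4
  obtain ⟨t0231, t0232, t0233, t0234, t0235⟩ := perm3 hMN4 hp 0 2 3
  obtain ⟨t0241, t0242, t0243, t0244, t0245⟩ := perm3 hMN4 hp 0 2 4
  obtain ⟨t0341, t0342, t0343, t0344, t0345⟩ := perm3 hMN4 hp 0 3 4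
  obtain ⟨t1231, t1232, t1233, t1234, t1235⟩ := perm3 hMN4 hp 1 2 3
  obtain ⟨t1241, t1242, t1243, t1244, t1245⟩ := perm3 hMN4 hp 1 2 4
  obtain ⟨t1341, t1342, t1343, t1344, t1345⟩ := perm3 hMN4 hp 1 3 4
  obtain ⟨t2341, t2342, t2343, t2344, t2345⟩ := perm3 hMN4 hp 2 3 4
  have WA5 := hW5 E (p 5) (p 0) (p 2) (p 4) (p 1) (p 3) (hp.1 5) S50 S52 S54 S51 S53 (hp.2 0 2) (hp.2 2 4) (hp.2 4 1) (hp.2 1 3) (hp.2 3 0)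
  have WB5 := hW5 E (p 5) (p 0) (p 3) (p 1) (p 4) (p 2) (hp.1 5) S50 S53 S51 S54 S52 (hp.2 0 3) (hp.2 3 1) (hp.2 1 4) (hp.2 4 2) (hp.2 2 0)
  have WA0 := hW5 E (p 0) (p 5) (p 3) (p 1) (p 4) (p 2) (hp.1 0) S05 S03 S01 S04 S02 (hp.2 5 3) (hp.2 3 1) (hp.2 1 4) (hp.2 4 2) (hp.2 2 5)
  have WB0 := hW5 E (p 0) (p 5) (p 2) (p 4) (p 1) (p 3) (hp.1 0) S05 S02 S04 S01 S03 (hp.2 5 2) (hp.2 2 4) (hp.2 4 1) (hp.2 1 3) (hp.2 3 5)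
  have WA1 := hW5 E (p 1) (p 5) (p 4) (p 2) (p 0) (p 3) (hp.1 1) S15 S14 S12 S10 S13 (hp.2 5 4) (hp.2 4 2) (hp.2 2 0) (hp.2 0 3) (hp.2 3 5)
  have WB1 := hW5 E (p 1) (p 5) (p 3) (p 0) (p 2) (p 4) (hp.1 1) S15 S13 S10 S12 S14 (hp.2 5 3) (hp.2 3 0) (hp.2 0 2) (hp.2 2 4) (hp.2 4 5)
  have WA2 := hW5 E (p 2) (p 5) (p 0) (p 3) (p 1) (p 4) (hp.1 2) S25 S20 S23 S21 S24 (hp.2 5 0) (hp.2 0 3) (hp.2 3 1) (hp.2 1 4) (hp.2 4 5)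
  have WB2 := hW5 E (p 2) (p 5) (p 4) (p 1) (p 3) (p 0) (hp.1 2) S25 S24 S21 S23 S20 (hp.2 5 4) (hp.2 4 1) (hp.2 1 3) (hp.2 3 0) (hp.2 0 5)
  have WA3 := hW5 E (p 3) (p 5) (p 1) (p 4) (p 2) (p 0) (hp.1 3) S35 S31 S34 S32 S30 (hp.2 5 1) (hp.2 1 4) (hp.2 4 2) (hp.2 2 0) (hp.2 0 5)
  have WB3 := hW5 E (p 3) (p 5) (p 0) (p 2) (p 4) (p 1) (hp.1 3) S35 S30 S32 S34 S31 (hp.2 5 0) (hp.2 0 2) (hp.2 2 4) (hp.2 4 1) (hp.2 1 5)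
  have WA4 := hW5 E (p 4) (p 5) (p 2) (p 0) (p 3) (p 1) (hp.1 4) S45 S42 S40 S43 S41 (hp.2 5 2) (hp.2 2 0) (hp.2 0 3) (hp.2 3 1) (hp.2 1 5)
  have WB4 := hW5 E (p 4) (p 5) (p 1) (p 3) (p 0) (p 2) (hp.1 4) S45 S41 S43 S40 S42 (hp.2 5 1) (hp.2 1 3) (hp.2 3 0) (hp.2 0 2) (hp.2 2 5)
  simp only [t5011, t5012, t5013, t5014, t5015, t5021, t5022, t5023, t5024, t5025, t5031, t5032, t5033, t5034, t5035, t5041, t5042, t5043, t5044, t5045, t5121, t5122, t5123, t5124, t5125, t5131, t5132, t5133, t5134, t5135, t5141, t5142, t5143, t5144, t5145, t5231, t5232, t5233, t5234, t5235, t5241, t5242, t5243, t5244, t5245, t5341, t5342, t5343, t5344, t5345, t0121, t0122, t0123, t0124, t0125, t0131, t0132, t0133, t0134, t0135, t0141, t0142, t0143, t0144, t0145, t0231, t0232, t0233, t0234, t0235, t0241, t0242, t0243, t0244, t0245, t0341,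 t0342, t0343, t0344, t0345, t1231, t1232, t1233, t1234, t1235, t1241, t1242, t1243, t1244, t1245, t1341, t1342, t1343, t1344, t1345, t2341, t2342, t2343, t2344, t2345] at WA5 WB5 WA0 WB0 WA1 WB1 WA2 WB2 WA3 WB3 WA4 WB4 Z0 Z1 Z2 Z3 Z4 M0 M1 M2 M3 M4
  rcases hv with hv | hv
  · rw [hv] at M0 M1 M2 M3 M4
    linarith
  · rw [hv] at M0 M1 M2 M3 M4
    linarith

end

end Pool.Agent.H13.FL
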