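import Pool.Agent.H58.FL.Targets

/-!
Row SMC of the board flb_modules (`MP_6a7a6f_gt`): sets of small diameter have no monopoles.
-/

set_option autoImplicit false

namespace Pool.Agent.H13.FL

open Pool.Agent.H58.FL Pool.Agent.H59 Pool.Agent.H48.FR

noncomputable section

theorem ar_small (hGRM : T_GRM) {E : Type} [NormedAddCommGroup E] [InnerProductSpace ℂ E]
    (a b c : E) (ha : ‖a‖ = 1) (hb : ‖b‖ = 1) (hc : ‖c‖ = 1) (hab : 1 / 2 ≤ ‖inner ℂ a b‖ ^ 2)
    (hbc : 1 / 2 ≤ ‖inner ℂ b c‖ ^ 2) (hac : 1 / 2 ≤ ‖inner ℂ a c‖ ^ 2) :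
    |ar a b c| < Real.pi / 2 := by
  have h := hGRM E a b c ha hb
  rw [hc] at h
  unfold ar
  rw [Complex.abs_arg_lt_pi_div_two_iff]
  left
  nlinarith

theorem pf_SMC (hGRM : T_GRM) (hINT : T_INT) : T_SMC := by
  intro E _ _ a b c d ha hb hc hd hab hac had hbc hbd hcd
  have hne : ∀ x : ℂ, 1 / 2 ≤ ‖x‖ ^ 2 → x ≠ 0 := by
    intro x hx h
    rw [h, norm_zero] at hx
    norm_num at hx
  obtain ⟨k, hk⟩ := (hINT E).1 a b c d (hne _ hab) (hne _ hac) (hne _ had) (hne _ hbc)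
    (hne _ hbd) (hne _ hcd)
  have h1 := abs_lt.1 (ar_small hGRM b c d hb hc hd hbc hcd hbd)
  have h2 := abs_lt.1 (ar_small hGRM a c d ha hc hd hac hcd had)
  have h3 := abs_lt.1 (ar_small hGRM a b d ha hb hd hab hbd had)
  have h4 := abs_lt.1 (ar_small hGRM a b c ha hb hc hab hbc hac)
  have hpi := Real.pi_pos
  have h5 : mn a b c d < 1 := by
    unfold mn
    rw [div_lt_one (by linarith)]
    linarith [h1.2, h2.1, h3.2, h4.1]
  have h6 : -1 < mn a b c d := by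
    unfold mn
    rw [lt_div_iff₀ (by linarith)]
    linarith [h1.1, h2.2, h3.1, h4.2]
  rw [hk] at h5 h6 ⊢
  have h7 : k < 1 := by exact_mod_cast h5
  have h8 : -1 < k := by exact_mod_cast h6
  have h9 : k = 0 := by omega
  rw [h9, Int.cast_zero]

end

end Pool.Agent.H13.FL
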